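import Pool.Agent.Q220.Pei.Transfer

/-!
The bidirectional `3`-neighbour graph on `ℤ²` percolates.  (The model and the percolation
probability `theta d k` are defined in `Pool/Agent/Q220/Bng/Model.lean`: `law d k` is the uniform
law on the sets of `k` of the `2d` directions, `PP d k` the law of independent choices of all
vertices, and in `bng ω` two vertices are adjacent when each chooses the other.)
-/

set_option autoImplicit false

namespace Pool.Agent.Results.MP_627919_pr.Percolates

open Pool.Agent.Q220.Bng

/-- With positive probability the component of the origin in the bidirectional `3`-neighbour graph
on `ℤ²` is infinite. -/
theorem result : 0 < theta 2 3 (by norm_num) := Pool.Agent.Q220.Pei.theta_pos _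

end Pool.Agent.Results.MP_627919_pr.Percolates
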